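import Pool.Agent.Lib.MP_b1a3a4_al.MVS.Interfaces

/-!
# Project MVS: module KERNEL (Paper 4.2)
-/

set_option linter.all false

namespace Pool.Agent.Lib.MP_b1a3a4_al.MVS.H84

open Finsupp

/-! ## Restriction of scalars -/

section rst

variable {A B : Type} [Ring A] [Ring B] (f : A →+* B)

lemma rst_smul {M : Type} [AddCommGroup M] [Module B M] (a : A) (x : Rst f M) :
    a • x = (show Rst f M from (f a • (show M from x) : M)) := rfl

/-- a linear map with restricted scalars -/
noncomputable def rstMap {M N : Type} [AddCommGroup M] [AddCommGroup N] [Module B M] [Module B N]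
    (φ : M →ₗ[B] N) : Rst f M →ₗ[A] Rst f N where
  toFun x := φ x
  map_add' x y := φ.map_add x y
  map_smul' a x := φ.map_smul (f a) x

end rst

/-! ## Free modules over a smaller monoid ring -/

section free

variable {k S G Y X : Type} [CommRing k] [Monoid S] [Monoid G] (j : S →* G)

lemma aug_gmap (a : MonoidAlgebra k S) : aug k G (gmap k j a) = aug k S a := by
  induction a using MonoidAlgebra.induction_linear with
  | zero => simp
  | add f g hf hg => simp only [map_add, hf, hg]
  | single s c =>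
    rw [show gmap k j (MonoidAlgebra.single s c) = MonoidAlgebra.single (j s) c from
      MonoidAlgebra.mapDomain_single]
    simp

lemma exists_of_coeff_mul_ne {a b : MonoidAlgebra k G} {g : G} (h : (a * b).coeff g ≠ 0) :
    ∃ g₁ g₂, a.coeff g₁ ≠ 0 ∧ b.coeff g₂ ≠ 0 ∧ g₁ * g₂ = g := by
  classical
  have h1 := MonoidAlgebra.support_coeff_mul_subset a b (Finsupp.mem_support_iff.2 h)
  obtain ⟨g₁, h₁, g₂, h₂, h3⟩ := Finset.mem_mul.1 h1
  exact ⟨g₁, g₂, Finsupp.mem_support_iff.1 h₁, Finsupp.mem_support_iff.1 h₂, h3⟩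

lemma exists_of_gmap_ne {a : MonoidAlgebra k S} {g : G} (h : (gmap k j a).coeff g ≠ 0) :
    ∃ s, j s = g := by
  classical
  by_contra hc
  push Not at hc
  apply h
  show (Finsupp.mapDomain j a.coeff) g = 0
  apply Finsupp.mapDomain_notin_range
  rintro ⟨s, hs⟩
  exact hc s hs

/-- elements with all positions satisfying `P` -/
noncomputable def Esub (P : G → Prop) (hP : ∀ s g, P g → P (j s * g)) :
    Submodule (MonoidAlgebra k S) (Rst (gmap k j) (X →₀ MonoidAlgebra k G)) where
  carrier := {v | ∀ x g, ((show X →₀ MonoidAlgebra k G from v) x).coeff g ≠ 0 → P g}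
  zero_mem' := by
    intro x g h
    exact absurd rfl h
  add_mem' := by
    intro v w hv hw x g h
    by_contra hc
    have h1 : ((show X →₀ MonoidAlgebra k G from v) x).coeff g = 0 := by
      by_contra h'
      exact hc (hv x g h')
    have h2 : ((show X →₀ MonoidAlgebra k G from w) x).coeff g = 0 := by
      by_contra h'
      exact hc (hw x g h')
    apply h
    show ((show X →₀ MonoidAlgebra k G from v) x).coeff g +
      ((show X →₀ MonoidAlgebra k G from w) x).coeff g = 0
    rw [h1, h2, add_zero]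
  smul_mem' := by
    intro a v hv x g h
    have h0 : (gmap k j a * (show X →₀ MonoidAlgebra k G from v) x).coeff g ≠ 0 := h
    obtain ⟨g₁, g₂, h₁, h₂, rfl⟩ := exists_of_coeff_mul_ne h0
    obtain ⟨s, rfl⟩ := exists_of_gmap_ne j h₁
    exact hP s g₂ (hv x g₂ h₂)

lemma mem_Esub {P : G → Prop} {hP : ∀ s g, P g → P (j s * g)}
    {v : X →₀ MonoidAlgebra k G} :
    (show Rst (gmap k j) (X →₀ MonoidAlgebra k G) from v) ∈ Esub (k := k) (X := X) j P hP ↔
      ∀ x g, (v x).coeff g ≠ 0 → P g := Iff.rfl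

variable (τ : Y → G)

/-- the map from the free `kS`-module -/
noncomputable def Phi : (Y × X →₀ MonoidAlgebra k S) →ₗ[MonoidAlgebra k S]
    Rst (gmap k j) (X →₀ MonoidAlgebra k G) :=
  Finsupp.linearCombination _ (fun p =>
    (show Rst (gmap k j) (X →₀ MonoidAlgebra k G) from
      Finsupp.single p.2 (MonoidAlgebra.single (τ p.1) 1)))

lemma Phi_single (p : Y × X) (s : S) (r : k) :
    Phi (k := k) (X := X) j τ (Finsupp.single p (MonoidAlgebra.single s r)) =
      (show Rst (gmap k j) (X →₀ MonoidAlgebra k G) from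
      Finsupp.single p.2 (MonoidAlgebra.single (j s * τ p.1) r)) := by
  rw [Phi, Finsupp.linearCombination_single, rst_smul]
  show gmap k j (MonoidAlgebra.single s r) • Finsupp.single p.2 (MonoidAlgebra.single (τ p.1) 1)
    = Finsupp.single p.2 (MonoidAlgebra.single (j s * τ p.1) r)
  rw [show gmap k j (MonoidAlgebra.single s r) = MonoidAlgebra.single (j s) r from
      MonoidAlgebra.mapDomain_single, Finsupp.smul_single, smul_eq_mul,
      MonoidAlgebra.single_mul_single, mul_one]

lemma Phi_coeff (hinj : ∀ s y s' y', j s * τ y = j s' * τ y' → s = s' ∧ y = y')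
    (c : Y × X →₀ MonoidAlgebra k S) (y : Y) (x : X) (s : S) :
    ((show X →₀ MonoidAlgebra k G from Phi (k := k) (X := X) j τ c) x).coeff (j s * τ y) =
      (c (y, x)).coeff s := by
  classical
  induction c using Finsupp.induction_linear with
  | zero => rw [map_zero]; rfl
  | add v w hv hw =>
    rw [map_add]
    exact congrArg₂ (· + ·) hv hw
  | single p a =>
    induction a using MonoidAlgebra.induction_linear with
    | zero => rw [Finsupp.single_zero, map_zero]; rfl
    | add a b ha hb =>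
      rw [Finsupp.single_add, map_add]
      exact congrArg₂ (· + ·) ha hb
    | single s' r =>
      rw [Phi_single]
      show ((Finsupp.single p.2 (MonoidAlgebra.single (j s' * τ p.1) r) :
        X →₀ MonoidAlgebra k G) x).coeff (j s * τ y) = _
      obtain ⟨y', x'⟩ := p
      by_cases hx : x' = x
      · subst hx
        rw [Finsupp.single_eq_same, MonoidAlgebra.coeff_single, Finsupp.single_apply]
        by_cases hy : y' = y
        · subst hy
          rw [Finsupp.single_eq_same, MonoidAlgebra.coeff_single, Finsupp.single_apply]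
          by_cases hs : s' = s
          · subst hs
            simp
          · rw [if_neg, if_neg hs]
            intro h
            exact hs (hinj _ _ _ _ h).1
        · rw [if_neg (fun h => hy (hinj _ _ _ _ h).2), Finsupp.single_eq_of_ne
            (fun h => hy (by simpa using (congrArg Prod.fst h).symm))]
          rfl
      · rw [Finsupp.single_eq_of_ne (fun h => hx h.symm), Finsupp.single_eq_of_ne
          (fun h => hx (by simpa using (congrArg Prod.snd h).symm))]
        rfl

lemma Phi_inj (hinj : ∀ s y s' y', j s * τ y = j s' * τ y' → s = s' ∧ y = y') :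
    Function.Injective (Phi (k := k) (X := X) j τ) := by
  rw [injective_iff_map_eq_zero]
  intro c hc
  ext p : 1
  obtain ⟨y, x⟩ := p
  apply MonoidAlgebra.ext
  ext s
  rw [← Phi_coeff j τ hinj c y x s, hc]
  rfl

lemma Phi_range {P : G → Prop} (hP : ∀ s g, P g → P (j s * g))
    (h1 : ∀ y, P (τ y)) (h2 : ∀ g, P g → ∃ s y, j s * τ y = g) :
    LinearMap.range (Phi (k := k) (X := X) j τ) = Esub (k := k) (X := X) j P hP := by
  classical
  apply le_antisymm
  · rw [Phi, Finsupp.range_linearCombination, Submodule.span_le]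
    rintro _ ⟨p, rfl⟩ x g h
    have h3 : ((Finsupp.single p.2 (MonoidAlgebra.single (τ p.1) (1 : k)) :
      X →₀ MonoidAlgebra k G) x).coeff g ≠ 0 := h
    by_cases hx : p.2 = x
    · subst hx
      rw [Finsupp.single_eq_same, MonoidAlgebra.coeff_single, Finsupp.single_apply] at h3
      by_cases hg : τ p.1 = g
      · subst hg
        exact h1 _
      · rw [if_neg hg] at h3
        exact absurd rfl h3
    · rw [Finsupp.single_eq_of_ne (fun h => hx h.symm)] at h3
      exact absurd rfl h3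
  · intro v hv
    have hv' := (mem_Esub (k := k) (X := X) j (hP := hP)).1 hv
    have key : v = (show Rst (gmap k j) (X →₀ MonoidAlgebra k G) from
      ∑ x ∈ (show X →₀ MonoidAlgebra k G from v).support,
        ∑ g ∈ ((show X →₀ MonoidAlgebra k G from v) x).coeff.support,
        Finsupp.single x (MonoidAlgebra.single g
          (((show X →₀ MonoidAlgebra k G from v) x).coeff g))) := by
      show (show X →₀ MonoidAlgebra k G from v) = _
      conv_lhs => rw [← Finsupp.sum_single (show X →₀ MonoidAlgebra k G from v)]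
      unfold Finsupp.sum
      apply Finset.sum_congr rfl
      intro x hx
      conv_lhs => rw [← MonoidAlgebra.sum_coeff_single ((show X →₀ MonoidAlgebra k G from v) x)]
      unfold Finsupp.sum
      rw [← Finsupp.singleAddHom_apply, map_sum]
      rfl
    rw [key]
    refine Submodule.sum_mem (p := LinearMap.range (Phi (k := k) (X := X) j τ)) ?_
    intro x hx
    refine Submodule.sum_mem (p := LinearMap.range (Phi (k := k) (X := X) j τ)) ?_
    intro g hg
    obtain ⟨s, y, rfl⟩ := h2 g (hv' x g (Finsupp.mem_support_iff.1 hg))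
    exact ⟨_, Phi_single j τ (y, x) s _⟩

lemma Esub_free {P : G → Prop} (hP : ∀ s g, P g → P (j s * g))
    (hinj : ∀ s y s' y', j s * τ y = j s' * τ y' → s = s' ∧ y = y')
    (h1 : ∀ y, P (τ y)) (h2 : ∀ g, P g → ∃ s y, j s * τ y = g) :
    Nonempty (Esub (k := k) (X := X) j P hP ≃ₗ[MonoidAlgebra k S]
      (Y × X →₀ MonoidAlgebra k S)) := by
  have e1 := LinearEquiv.ofInjective _ (Phi_inj (k := k) (X := X) j τ hinj)
  rw [Phi_range j τ hP h1 h2] at e1
  exact ⟨e1.symm⟩

end free

/-! ## Positions -/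

section pos

variable {k G : Type} [CommRing k] [Group G] (χ : Chr G)

lemma LB_iff {X : Type} {a : ℝ} {v : X →₀ MonoidAlgebra k G} :
    LB χ a v ↔ ∀ x g, (v x).coeff g ≠ 0 → a ≤ val χ g := by
  unfold LB
  simp only [Finsupp.mem_support_iff]

lemma UB_iff {X : Type} {a : ℝ} {v : X →₀ MonoidAlgebra k G} :
    UB χ a v ↔ ∀ x g, (v x).coeff g ≠ 0 → val χ g ≤ a := by
  unfold UB
  simp only [Finsupp.mem_support_iff]

lemma UB_neg_iff {X : Type} {a : ℝ} {v : X →₀ MonoidAlgebra k G} :
    LB (-χ) (-a) v ↔ UB χ a v := by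
  unfold LB UB
  simp only [val_neg, neg_le_neg_iff]

lemma exists_LB {X : Type} (v : X →₀ MonoidAlgebra k G) : ∃ c : ℝ, 0 ≤ c ∧ LB χ (-c) v := by
  have hfin : (⋃ x ∈ (v.support : Set X), (val χ) '' ((v x).coeff.support : Set G)).Finite :=
    Set.Finite.biUnion v.support.finite_toSet
      (fun x _ => ((v x).coeff.support.finite_toSet).image _)
  obtain ⟨m, hm⟩ := hfin.bddBelow
  refine ⟨max 0 (-m), le_max_left _ _, ?_⟩
  rw [LB_iff]
  intro x g hg
  have h1 : m ≤ val χ g := by
    apply hm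
    simp only [Set.mem_iUnion]
    refine ⟨x, ?_, g, Finsupp.mem_support_iff.2 hg, rfl⟩
    simp only [Finset.mem_coe, Finsupp.mem_support_iff]
    intro h0
    rw [h0] at hg
    exact hg rfl
  have h2 := le_max_right 0 (-m)
  linarith

lemma disp {X Y : Type} [Finite X]
    (A : (X →₀ MonoidAlgebra k G) →ₗ[MonoidAlgebra k G] (Y →₀ MonoidAlgebra k G)) :
    ∃ c : ℝ, 0 ≤ c ∧ ∀ (a : ℝ) (v : X →₀ MonoidAlgebra k G), LB χ a v → LB χ (a - c) (A v) := by
  classical
  haveI := Fintype.ofFinite X
  choose c hc0 hc using fun x : X => exists_LB (k := k) χ (A (Finsupp.single x 1))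
  refine ⟨∑ x, c x, Finset.sum_nonneg (fun x _ => hc0 x), ?_⟩
  intro a v hv
  rw [LB_iff]
  intro y g hg
  have h1 : A v = ∑ x, (v x) • A (Finsupp.single x 1) := by
    conv_lhs => rw [← Finsupp.univ_sum_single v]
    rw [map_sum]
    apply Finset.sum_congr rfl
    intro x _
    rw [← map_smul, Finsupp.smul_single, smul_eq_mul, mul_one]
  rw [h1, Finsupp.finset_sum_apply, MonoidAlgebra.coeff_sum, Finsupp.finset_sum_apply] at hg
  obtain ⟨x, _, hx⟩ := Finset.exists_ne_zero_of_sum_ne_zero hg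
  have hx' : ((v x) * (A (Finsupp.single x 1)) y).coeff g ≠ 0 := hx
  obtain ⟨g₁, g₂, h₁, h₂, rfl⟩ := exists_of_coeff_mul_ne hx'
  have h3 := (LB_iff χ).1 hv x g₁ h₁
  have h4 := (LB_iff χ).1 (hc x) y g₂ h₂
  have h5 : c x ≤ ∑ x, c x := Finset.single_le_sum (fun x _ => hc0 x) (Finset.mem_univ x)
  rw [val_mul]
  linarith

end pos

/-! ## The theorem -/

section kernel

variable {k S G : Type} [CommRing k] [Group S] [Group G] {j : S →* G}
  {ψ : G →* Multiplicative ℤ}

lemma kernel_aux (h : SES j ψ) (r : ℕ) {X : Type} [Finite X]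
    (hP : ∀ (s : S) (g : G), |val (intChr ψ) g| ≤ (r : ℝ) → |val (intChr ψ) (j s * g)| ≤ (r : ℝ)) :
    ∃ Y : Type, Finite Y ∧ Nonempty (Esub (k := k) (X := X) j
      (fun g => |val (intChr ψ) g| ≤ (r : ℝ)) hP ≃ₗ[MonoidAlgebra k S]
        (Y →₀ MonoidAlgebra k S)) := by
  obtain ⟨t, ht⟩ := h.surj (Multiplicative.ofAdd 1)
  have hψj : ∀ s, ψ (j s) = 1 := fun s => (h.ex _).2 ⟨s, rfl⟩
  have hψt : ∀ i : ℤ, ψ (t ^ i) = Multiplicative.ofAdd i := by
    intro i
    rw [map_zpow, ht, ← ofAdd_zsmul]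
    simp
  let Y := {i : ℤ // i ∈ Finset.Icc (-(r : ℤ)) r}
  refine ⟨Y × X, inferInstance, ?_⟩
  refine Esub_free j (fun y : Y => t ^ (y : ℤ)) hP ?_ ?_ ?_
  · rintro s ⟨y, hy⟩ s' ⟨y', hy'⟩ heq
    have h1 := congrArg ψ heq
    simp only [map_mul, hψj, hψt, one_mul] at h1
    have h2 : y = y' := Multiplicative.ofAdd.injective h1
    subst h2
    exact ⟨h.inj (mul_right_cancel heq), rfl⟩
  · rintro ⟨y, hy⟩
    rw [Finset.mem_Icc] at hy
    rw [val_intChr, hψt, toAdd_ofAdd, abs_le]
    constructor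
    · have := hy.1
      exact_mod_cast this
    · have := hy.2
      exact_mod_cast this
  · intro g hg
    rw [val_intChr, abs_le] at hg
    have hi : Multiplicative.toAdd (ψ g) ∈ Finset.Icc (-(r : ℤ)) r := by
      rw [Finset.mem_Icc]
      constructor
      · have := hg.1
        exact_mod_cast this
      · have := hg.2
        exact_mod_cast this
    have h1 : ψ (g * (t ^ (Multiplicative.toAdd (ψ g)))⁻¹) = 1 := by
      rw [map_mul, map_inv, hψt, ofAdd_toAdd, mul_inv_cancel]
    obtain ⟨s, hs⟩ := (h.ex _).1 h1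
    refine ⟨s, ⟨_, hi⟩, ?_⟩
    rw [hs]
    simp

end kernel

theorem kernel (hFILT : FiltStatement) (hCUT : CutStatement) : KernelStatement := by
  intro k S G _ _ _ j ψ h n F hF hpush1 hpush2
  obtain ⟨C1, hC1, hcut1⟩ := hCUT k G (intChr ψ) n F hF hpush1
  obtain ⟨C2, hC2, hcut2⟩ := hCUT k G (-(intChr ψ)) n F hF hpush2
  have hψj : ∀ s, ψ (j s) = 1 := fun s => (h.ex _).2 ⟨s, rfl⟩
  have hP : ∀ (r : ℕ) (s : S) (g : G), |val (intChr ψ) g| ≤ (r : ℝ) →
      |val (intChr ψ) (j s * g)| ≤ (r : ℝ) := by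
    intro r s g hg
    rw [val_mul, val_intChr _ (j s), hψj]
    simpa using hg
  -- displacement bounds
  have hdisp : ∀ q : ℕ, ∃ c : ℝ, 0 ≤ c ∧ (q + 1 ≤ n → ∀ (a : ℝ) (v : F.X (q + 1) →₀ _),
      (LB (intChr ψ) a v → LB (intChr ψ) (a - c) (F.d q v)) ∧
      (LB (-(intChr ψ)) a v → LB (-(intChr ψ)) (a - c) (F.d q v))) := by
    intro q
    by_cases hq : q + 1 ≤ n
    · haveI := hF (q + 1) hq
      obtain ⟨c, hc0, hc⟩ := disp (intChr ψ) (F.d q)
      obtain ⟨c', hc0', hc'⟩ := disp (-(intChr ψ)) (F.d q)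
      refine ⟨max c c', le_max_of_le_left hc0, fun _ a v => ⟨fun hv => ?_, fun hv => ?_⟩⟩
      · have := hc a v hv
        rw [LB_iff] at this ⊢
        intro x g hg
        have h1 := this x g hg
        have h2 := le_max_left c c'
        linarith
      · have := hc' a v hv
        rw [LB_iff] at this ⊢
        intro x g hg
        have h1 := this x g hg
        have h2 := le_max_right c c'
        linarith
    · exact ⟨0, le_rfl, fun h' => absurd h' hq⟩
  choose D hD0 hD using hdisp
  let cR : ℝ := (∑ q ∈ Finset.range n, D q) + C1 + C2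
  have hcR : ∀ q, q + 1 ≤ n → D q ≤ cR := by
    intro q hq
    have h1 : D q ≤ ∑ q ∈ Finset.range n, D q :=
      Finset.single_le_sum (fun q _ => hD0 q) (Finset.mem_range.2 (by omega))
    show D q ≤ (∑ q ∈ Finset.range n, D q) + C1 + C2
    linarith
  have hcR2 : C1 + C2 ≤ cR := by
    have : 0 ≤ ∑ q ∈ Finset.range n, D q := Finset.sum_nonneg (fun q _ => hD0 q)
    show C1 + C2 ≤ (∑ q ∈ Finset.range n, D q) + C1 + C2
    linarith
  obtain ⟨c, hc⟩ := exists_nat_ge cR
  have hmem : ∀ (q r : ℕ) (v : F.X q →₀ MonoidAlgebra k G),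
      (show Rst (gmap k j) (F.X q →₀ MonoidAlgebra k G) from v) ∈
        Esub (k := k) (X := F.X q) j (fun g => |val (intChr ψ) g| ≤ (r : ℝ)) (hP r) ↔
      LB (intChr ψ) (-(r : ℝ)) v ∧ LB (-(intChr ψ)) (-(r : ℝ)) v := by
    intro q r v
    rw [mem_Esub, UB_neg_iff, LB_iff, UB_iff]
    constructor
    · intro hv
      exact ⟨fun x g hg => (abs_le.1 (hv x g hg)).1, fun x g hg => (abs_le.1 (hv x g hg)).2⟩
    · rintro ⟨h1, h2⟩ x g hg
      exact abs_le.2 ⟨h1 x g hg, h2 x g hg⟩
  -- filling
  have hfill : ∀ (q r : ℕ), q + 1 ≤ n → ∀ z : F.X q →₀ MonoidAlgebra k G,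
      LB (intChr ψ) (-(r : ℝ)) z ∧ LB (-(intChr ψ)) (-(r : ℝ)) z → (∃ b, F.d q b = z) →
      ∃ b, F.d q b = z ∧ LB (intChr ψ) (-((r + c : ℕ) : ℝ)) b ∧
        LB (-(intChr ψ)) (-((r + c : ℕ) : ℝ)) b := by
    intro q r hq z hz ⟨b0, hb0⟩
    obtain ⟨b1, hb1, hb1', -⟩ := hcut2 q hq b0 r (by rw [hb0]; exact hz.2)
    rw [hb0] at hb1
    obtain ⟨b2, hb2, hb2', hb2''⟩ := hcut1 q hq b1 r (by rw [hb1]; exact hz.1)
    rw [hb1] at hb2
    refine ⟨b2, hb2, ?_, ?_⟩
    · rw [LB_iff] at hb2' ⊢
      intro x g hg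
      have h1 := hb2' x g hg
      push_cast
      linarith
    · have h3 : UB (intChr ψ) ((r : ℝ) + C2) b1 := by
        rw [← UB_neg_iff]
        have : -((r : ℝ) + C2) = -(r : ℝ) - C2 := by ring
        rw [this]
        exact hb1'
      have h4 := hb2'' _ h3
      rw [UB_neg_iff]
      rw [UB_iff] at h4 ⊢
      intro x g hg
      have h5 := h4 x g hg
      have h6 : max ((r : ℝ) + C2) (-(r : ℝ) + C1) ≤ ((r + c : ℕ) : ℝ) := by
        have hr : (0 : ℝ) ≤ r := Nat.cast_nonneg r
        push_cast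
        apply max_le <;> linarith
      exact h5.trans h6
  refine hFILT (MonoidAlgebra k S) n (Triv k S)
    (fun q => Rst (gmap k j) (F.X q →₀ MonoidAlgebra k G))
    (fun q => rstMap (gmap k j) (F.d q))
    ({ toFun := fun x => (show k from F.ε x)
       map_add' := fun x y => F.ε.map_add x y
       map_smul' := fun a x => by
        have h1 : F.ε (gmap k j a • (show F.X 0 →₀ MonoidAlgebra k G from x)) =
          gmap k j a • F.ε x := F.ε.map_smul _ x
        show F.ε (gmap k j a • (show F.X 0 →₀ MonoidAlgebra k G from x)) = _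
        rw [h1, triv_smul, aug_gmap]
        rfl })
    (fun q r => Esub (k := k) (X := F.X q) j (fun g => |val (intChr ψ) g| ≤ (r : ℝ)) (hP r)) c
    ?_ ?_ ?_ ?_ ?_ ?_ ?_ ?_
  · intro q z
    exact F.isCx q z
  · intro z
    exact F.ε_d z
  · intro q r r' hr v hv x g hg
    have h1 := hv x g hg
    have h2 : (r : ℝ) ≤ r' := by exact_mod_cast hr
    exact le_trans h1 h2
  · intro q hq r
    haveI := hF q hq
    exact kernel_aux h r (hP r)
  · intro q hq r z hz
    have hz' := (hmem (q + 1) r z).1 hz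
    refine (hmem q (r + c) _).2 ⟨?_, ?_⟩
    · have h1 := (hD q hq _ z).1 hz'.1
      show LB (intChr ψ) _ (F.d q z)
      rw [LB_iff] at h1 ⊢
      intro x g hg
      have h2 := h1 x g hg
      have h3 := hcR q hq
      push_cast
      linarith
    · have h1 := (hD q hq _ z).2 hz'.2
      show LB (-(intChr ψ)) _ (F.d q z)
      rw [LB_iff] at h1 ⊢
      intro x g hg
      have h2 := h1 x g hg
      have h3 := hcR q hq
      push_cast
      linarith
  · obtain ⟨v, hv⟩ := F.ε_surj (show Triv k G from (1 : k))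
    obtain ⟨c1, hc10, hc1⟩ := exists_LB (intChr ψ) v
    obtain ⟨c2, hc20, hc2⟩ := exists_LB (-(intChr ψ)) v
    obtain ⟨r₀, hr₀⟩ := exists_nat_ge (c1 + c2)
    refine ⟨r₀, fun a => ?_⟩
    have hvm : (show Rst (gmap k j) (F.X 0 →₀ MonoidAlgebra k G) from v) ∈
        Esub (k := k) (X := F.X 0) j (fun g => |val (intChr ψ) g| ≤ (r₀ : ℝ)) (hP r₀) := by
      rw [hmem]
      constructor
      · rw [LB_iff] at hc1 ⊢
        intro x g hg
        have := hc1 x g hg
        linarith
      · rw [LB_iff] at hc2 ⊢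
        intro x g hg
        have := hc2 x g hg
        linarith
    refine ⟨(MonoidAlgebra.single (1 : S) (show k from a) : MonoidAlgebra k S) •
      (show Rst (gmap k j) (F.X 0 →₀ MonoidAlgebra k G) from v),
      Submodule.smul_mem _ _ hvm, ?_⟩
    rw [map_smul]
    show (MonoidAlgebra.single (1 : S) (show k from a) : MonoidAlgebra k S) •
      (show Triv k S from F.ε v) = a
    rw [hv, triv_smul, aug_single]
    exact mul_one (M := k) _
  · intro hn r z hz hez
    have hz' := (hmem 0 r z).1 hz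
    obtain ⟨b, hb, hb'⟩ := hfill 0 r hn z hz' ((F.ex0 z).1 hez)
    exact ⟨b, (hmem 1 (r + c) b).2 hb', hb⟩
  · intro q hq r z hz hdz
    have hz' := (hmem (q + 1) r z).1 hz
    obtain ⟨b, hb, hb'⟩ := hfill (q + 1) r hq z hz' ((F.ex q z).1 hdz)
    exact ⟨b, (hmem (q + 2) (r + c) b).2 hb', hb⟩

end Pool.Agent.Lib.MP_b1a3a4_al.MVS.H84
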