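import Pool.Agent.Lib.MP_b1a3a4_al.MVS.Interfaces
import Pool.Agent.Lib.MP_b1a3a4_al.MVS.H84.Kernel

/-!
# Project MVS: module FPIND (Paper 4.4 (ii), induced modules)
-/

set_option linter.all false

namespace Pool.Agent.Lib.MP_b1a3a4_al.MVS.H84

open Finsupp

section induced

variable {k N G Q : Type} [CommRing k] [Group N] [Group G] [Group Q] (j : N →* G) (σ : Q → G)

lemma gmap_single {k N G : Type} [CommRing k] [Monoid N] [Monoid G] (j : N →* G) (n : N) (c : k) :
    gmap k j (MonoidAlgebra.single n c) = MonoidAlgebra.single (j n) c :=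
  MonoidAlgebra.mapDomain_single

/-- `w ↦ g • j_* w` as an additive map -/
noncomputable def tw (X : Type) (g : G) :
    (X →₀ MonoidAlgebra k N) →+ (X →₀ MonoidAlgebra k G) where
  toFun w := MonoidAlgebra.single g (1 : k) • mp (gmap k j) w
  map_zero' := by simp
  map_add' v w := by simp [smul_add]

lemma tw_single (X : Type) (g : G) (x : X) (n : N) (c : k) :
    tw (k := k) j X g (Finsupp.single x (MonoidAlgebra.single n c)) =
      Finsupp.single x (MonoidAlgebra.single (g * j n) c) := by
  show MonoidAlgebra.single g (1 : k) • mp (gmap k j) _ = _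
  rw [mp_single, gmap_single, Finsupp.smul_single, smul_eq_mul, MonoidAlgebra.single_mul_single,
    one_mul]

/-- the additive bijection `⊕_Q (kN)^(X) → (kG)^(X)` -/
noncomputable def Tm (X : Type) :
    (Q →₀ (X →₀ MonoidAlgebra k N)) →+ (X →₀ MonoidAlgebra k G) :=
  Finsupp.liftAddHom (fun q => tw (k := k) j X (σ q))

lemma Tm_single (X : Type) (q : Q) (w : X →₀ MonoidAlgebra k N) :
    Tm (k := k) j σ X (Finsupp.single q w) = tw (k := k) j X (σ q) w := by
  simp [Tm]

lemma Tm_coeff (hinj : ∀ q n q' n', σ q * j n = σ q' * j n' → q = q' ∧ n = n') (X : Type)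
    (W : Q →₀ (X →₀ MonoidAlgebra k N)) (q : Q) (x : X) (n : N) :
    ((Tm (k := k) j σ X W) x).coeff (σ q * j n) = (W q x).coeff n := by
  classical
  induction W using Finsupp.induction_linear with
  | zero => rw [map_zero]; rfl
  | add v w hv hw =>
    rw [map_add]
    exact congrArg₂ (· + ·) hv hw
  | single q' w =>
    rw [Tm_single]
    induction w using Finsupp.induction_linear with
    | zero => rw [map_zero, Finsupp.single_zero]; rfl
    | add v w hv hw =>
      rw [map_add, Finsupp.single_add]
      exact congrArg₂ (· + ·) hv hw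
    | single x' a =>
      induction a using MonoidAlgebra.induction_linear with
      | zero => rw [Finsupp.single_zero, map_zero, Finsupp.single_zero]; rfl
      | add a b ha hb =>
        rw [Finsupp.single_add, map_add, Finsupp.single_add]
        exact congrArg₂ (· + ·) ha hb
      | single n' r =>
        rw [tw_single]
        by_cases hx : x' = x
        · subst hx
          rw [Finsupp.single_eq_same, MonoidAlgebra.coeff_single, Finsupp.single_apply]
          by_cases hq : q' = q
          · subst hq
            rw [Finsupp.single_eq_same, Finsupp.single_eq_same, MonoidAlgebra.coeff_single,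
              Finsupp.single_apply]
            by_cases hn : n' = n
            · subst hn
              simp
            · rw [if_neg (fun h => hn (hinj _ _ _ _ h).2), if_neg hn]
          · rw [if_neg (fun h => hq (hinj _ _ _ _ h).1),
              Finsupp.single_eq_of_ne (fun h => hq h.symm)]
            rfl
        · rw [Finsupp.single_eq_of_ne (fun h => hx h.symm)]
          by_cases hq : q' = q
          · subst hq
            rw [Finsupp.single_eq_same, Finsupp.single_eq_of_ne (fun h => hx h.symm)]
            rfl
          · rw [Finsupp.single_eq_of_ne (fun h => hq h.symm)]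
            rfl

lemma Tm_inj (hinj : ∀ q n q' n', σ q * j n = σ q' * j n' → q = q' ∧ n = n') (X : Type) :
    Function.Injective (Tm (k := k) j σ X) := by
  rw [injective_iff_map_eq_zero]
  intro W hW
  ext q x : 2
  apply MonoidAlgebra.ext
  ext n
  rw [← Tm_coeff j σ hinj X W q x n, hW]
  rfl

lemma Tm_surj (hsurj : ∀ g, ∃ q n, σ q * j n = g) (X : Type) :
    Function.Surjective (Tm (k := k) j σ X) := by
  intro v
  show v ∈ AddMonoidHom.mrange (Tm (k := k) j σ X)
  induction v using Finsupp.induction_linear with
  | zero => exact zero_mem _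
  | add v w hv hw => exact add_mem hv hw
  | single x a =>
    induction a using MonoidAlgebra.induction_linear with
    | zero => rw [Finsupp.single_zero]; exact zero_mem _
    | add a b ha hb => rw [Finsupp.single_add]; exact add_mem ha hb
    | single g r =>
      obtain ⟨q, n, rfl⟩ := hsurj g
      refine ⟨Finsupp.single q (Finsupp.single x (MonoidAlgebra.single n r)), ?_⟩
      rw [Tm_single, tw_single]

lemma bc_Tm {X Y : Type}
    (A : (X →₀ MonoidAlgebra k N) →ₗ[MonoidAlgebra k N] (Y →₀ MonoidAlgebra k N))
    (W : Q →₀ (X →₀ MonoidAlgebra k N)) :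
    bc (gmap k j) A (Tm (k := k) j σ X W) =
      Tm (k := k) j σ Y (W.mapRange A (map_zero A)) := by
  induction W using Finsupp.induction_linear with
  | zero => simp
  | add v w hv hw =>
    rw [map_add, map_add, hv, hw, ← map_add, Finsupp.mapRange_add (fun a b => map_add A a b)]
  | single q w =>
    rw [Finsupp.mapRange_single, Tm_single, Tm_single]
    show bc (gmap k j) A (MonoidAlgebra.single (σ q) (1 : k) • mp (gmap k j) w) =
      MonoidAlgebra.single (σ q) (1 : k) • mp (gmap k j) (A w)
    rw [map_smul, bc_mp]

end induced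

theorem fpind (hFPRES : FpresStatement) : FpindStatement := by
  intro k N G Q _ _ _ _ j π h n hN
  obtain ⟨F, hF⟩ := (hFPRES _ n _).1 hN
  rw [hFPRES]
  obtain ⟨σ, hσ⟩ := Function.surjective_iff_hasRightInverse.1 h.surj
  have hπj : ∀ s, π (j s) = 1 := fun s => (h.ex _).2 ⟨s, rfl⟩
  have hinj : ∀ q n q' n', σ q * j n = σ q' * j n' → q = q' ∧ n = n' := by
    intro q n q' n' heq
    have h1 := congrArg π heq
    rw [map_mul, map_mul, hπj, hπj, mul_one, mul_one, hσ, hσ] at h1
    subst h1
    exact ⟨rfl, h.inj (mul_left_cancel heq)⟩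
  have hsurj : ∀ g, ∃ q n, σ q * j n = g := by
    intro g
    have h1 : π ((σ (π g))⁻¹ * g) = 1 := by
      rw [map_mul, map_inv, hσ, inv_mul_cancel]
    obtain ⟨n, hn⟩ := (h.ex _).1 h1
    exact ⟨π g, n, by rw [hn, mul_inv_cancel_left]⟩
  -- the augmentation
  let e' : (F.X 0 →₀ MonoidAlgebra k G) →ₗ[MonoidAlgebra k G]
      Rst (gmap k π) (MonoidAlgebra k Q) :=
    Finsupp.linearCombination _ (fun x =>
      (show Rst (gmap k π) (MonoidAlgebra k Q) from
        MonoidAlgebra.single 1 (show k from F.ε (Finsupp.single x 1))))
  have he'mp : ∀ w : F.X 0 →₀ MonoidAlgebra k N, e' (mp (gmap k j) w) =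
      (show Rst (gmap k π) (MonoidAlgebra k Q) from
        MonoidAlgebra.single 1 (show k from F.ε w)) := by
    intro w
    induction w using Finsupp.induction_linear with
    | zero =>
      rw [mp_zero, map_zero, map_zero]
      exact (MonoidAlgebra.single_zero (R := k) (1 : Q)).symm
    | add v w hv hw =>
      rw [mp_add, map_add, map_add, hv, hw]
      exact (MonoidAlgebra.single_add (1 : Q) _ _).symm
    | single x a =>
      induction a using MonoidAlgebra.induction_linear with
      | zero =>
        rw [Finsupp.single_zero, mp_zero, map_zero, map_zero]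
        exact (MonoidAlgebra.single_zero (R := k) (1 : Q)).symm
      | add a b ha hb =>
        rw [Finsupp.single_add, mp_add, map_add, map_add, ha, hb]
        exact (MonoidAlgebra.single_add (1 : Q) _ _).symm
      | single m r =>
        rw [mp_single, gmap_single, Finsupp.linearCombination_single, rst_smul, gmap_single, hπj]
        have h2 : F.ε (Finsupp.single x (MonoidAlgebra.single m r)) =
            (show Triv k N from (r * (show k from F.ε (Finsupp.single x 1)) : k)) := by
          have h3 : Finsupp.single x (MonoidAlgebra.single m r) =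
              (MonoidAlgebra.single m r : MonoidAlgebra k N) •
                (Finsupp.single x 1 : F.X 0 →₀ MonoidAlgebra k N) := by
            rw [Finsupp.smul_single, smul_eq_mul, mul_one]
          rw [h3, map_smul, triv_smul, aug_single]
        rw [h2]
        show (MonoidAlgebra.single 1 r : MonoidAlgebra k Q) •
          (MonoidAlgebra.single 1 (show k from F.ε (Finsupp.single x 1)) : MonoidAlgebra k Q) =
          MonoidAlgebra.single 1 (r * (show k from F.ε (Finsupp.single x 1)) : k)
        rw [smul_eq_mul, MonoidAlgebra.single_mul_single, one_mul]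
  have he'T : ∀ (W : Q →₀ (F.X 0 →₀ MonoidAlgebra k N)) (q : Q),
      (show MonoidAlgebra k Q from e' (Tm (k := k) j σ (F.X 0) W)).coeff q =
        (show k from F.ε (W q)) := by
    classical
    intro W q
    induction W using Finsupp.induction_linear with
    | zero =>
      rw [map_zero, map_zero]
      exact (map_zero F.ε).symm
    | add v w hv hw =>
      rw [map_add, map_add]
      exact (congrArg₂ (· + ·) hv hw).trans (map_add F.ε _ _).symm
    | single q' w =>
      rw [Tm_single]
      show (show MonoidAlgebra k Q from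
        e' (MonoidAlgebra.single (σ q') (1 : k) • mp (gmap k j) w)).coeff q = _
      rw [map_smul, he'mp, rst_smul, gmap_single, hσ]
      show ((MonoidAlgebra.single q' (1 : k)) *
        (MonoidAlgebra.single 1 (show k from F.ε w) : MonoidAlgebra k Q)).coeff q = _
      rw [MonoidAlgebra.single_mul_single, one_mul, mul_one, MonoidAlgebra.coeff_single]
      by_cases hq : q' = q
      · subst hq
        rw [Finsupp.single_eq_same, Finsupp.single_eq_same]
      · rw [Finsupp.single_eq_of_ne (fun h => hq h.symm),
          Finsupp.single_eq_of_ne (fun h => hq h.symm)]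
        exact (map_zero F.ε).symm
  refine ⟨{ X := F.X, d := bcD (gmap k j) F.d, ε := e', ε_surj := ?_, ex0 := ?_, ex := ?_ }, ?_⟩
  · intro b
    obtain ⟨f, hf⟩ := Function.surjective_iff_hasRightInverse.1 F.ε_surj
    classical
    let f' : k → (F.X 0 →₀ MonoidAlgebra k N) := fun c => if c = 0 then 0 else
      f (show Triv k N from c)
    have hf' : ∀ c, (show k from F.ε (f' c)) = c := by
      intro c
      by_cases hc : c = 0
      · subst hc
        show F.ε (if (0 : k) = 0 then 0 else _) = 0
        rw [if_pos rfl, map_zero]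
      · show F.ε (if c = 0 then 0 else f (show Triv k N from c)) = _
        rw [if_neg hc]
        exact hf _
    refine ⟨Tm (k := k) j σ (F.X 0)
      ((show MonoidAlgebra k Q from b).coeff.mapRange f' (if_pos rfl)), ?_⟩
    apply MonoidAlgebra.ext
    ext q
    refine (he'T _ q).trans ?_
    rw [Finsupp.mapRange_apply]
    exact hf' _
  · intro z
    constructor
    · intro hz
      obtain ⟨W, rfl⟩ := Tm_surj (k := k) j σ hsurj (F.X 0) z
      have hW : ∀ q, ∃ y, F.d 0 y = W q := by
        intro q
        rw [← F.ex0]
        have h1 := he'T W q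
        rw [hz] at h1
        exact h1.symm
      classical
      have hW2 : ∀ w : F.X 0 →₀ MonoidAlgebra k N, ∃ y, (w = 0 → y = 0) ∧
          ((∃ y, F.d 0 y = w) → F.d 0 y = w) := by
        intro w
        by_cases hw : w = 0
        · exact ⟨0, fun _ => rfl, fun _ => by rw [map_zero, hw]⟩
        · by_cases hy : ∃ y, F.d 0 y = w
          · obtain ⟨y, hy⟩ := hy
            exact ⟨y, fun h => absurd h hw, fun _ => hy⟩
          · exact ⟨0, fun _ => rfl, fun h => absurd h hy⟩
      choose f hf0 hf using hW2
      refine ⟨Tm (k := k) j σ (F.X 1) (W.mapRange f (hf0 0 rfl)), ?_⟩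
      show bc (gmap k j) (F.d 0) (Tm (k := k) j σ (F.X 1) (W.mapRange f (hf0 0 rfl))) = _
      rw [bc_Tm]
      congr 1
      ext q : 1
      rw [Finsupp.mapRange_apply, Finsupp.mapRange_apply]
      exact hf _ (hW q)
    · rintro ⟨y, rfl⟩
      obtain ⟨W, rfl⟩ := Tm_surj (k := k) j σ hsurj (F.X 1) y
      show e' (bc (gmap k j) (F.d 0) (Tm (k := k) j σ (F.X 1) W)) = 0
      rw [bc_Tm]
      apply MonoidAlgebra.ext
      ext q
      refine (he'T _ q).trans ?_
      rw [Finsupp.mapRange_apply]
      exact F.ε_d _
  · intro p z
    constructor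
    · intro hz
      obtain ⟨W, rfl⟩ := Tm_surj (k := k) j σ hsurj (F.X (p + 1)) z
      have hz2 : bc (gmap k j) (F.d p) (Tm (k := k) j σ (F.X (p + 1)) W) = 0 := hz
      rw [bc_Tm] at hz2
      have hz' := Tm_inj (k := k) j σ hinj (F.X p) (hz2.trans (map_zero _).symm)
      have hW : ∀ q, ∃ y, F.d (p + 1) y = W q := by
        intro q
        rw [← F.ex]
        have := DFunLike.congr_fun hz' q
        rwa [Finsupp.mapRange_apply] at this
      classical
      have hW2 : ∀ w : F.X (p + 1) →₀ MonoidAlgebra k N, ∃ y, (w = 0 → y = 0) ∧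
          ((∃ y, F.d (p + 1) y = w) → F.d (p + 1) y = w) := by
        intro w
        by_cases hw : w = 0
        · exact ⟨0, fun _ => rfl, fun _ => by rw [map_zero, hw]⟩
        · by_cases hy : ∃ y, F.d (p + 1) y = w
          · obtain ⟨y, hy⟩ := hy
            exact ⟨y, fun h => absurd h hw, fun _ => hy⟩
          · exact ⟨0, fun _ => rfl, fun h => absurd h hy⟩
      choose f hf0 hf using hW2
      refine ⟨Tm (k := k) j σ (F.X (p + 2)) (W.mapRange f (hf0 0 rfl)), ?_⟩
      show bc (gmap k j) (F.d (p + 1))
        (Tm (k := k) j σ (F.X (p + 2)) (W.mapRange f (hf0 0 rfl))) = _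
      rw [bc_Tm]
      congr 1
      ext q : 1
      rw [Finsupp.mapRange_apply, Finsupp.mapRange_apply]
      exact hf _ (hW q)
    · rintro ⟨y, rfl⟩
      exact bcD_isCx (gmap k j) F.isCx p y
  · exact hF

end Pool.Agent.Lib.MP_b1a3a4_al.MVS.H84
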